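import Pool.Agent.H87.AN.TargetsC

/-! Cutoffs of arbitrary sets in `V d`. Twin of `Pool.Agent.H65.D3.CTF`. -/

set_option autoImplicit false

namespace Pool.Agent.H56.AN

open MeasureTheory Metric Set Filter Topology
open scoped ContDiff ENNReal Convolution
open Pool.Agent.H22.AN (V)

variable {d : ℕ}

/-- unit scale -/
theorem ctf_one (d : ℕ) : ∃ C : ℝ, 0 ≤ C ∧ ∀ F : Set (V d), ∃ χ : V d → ℝ,
    ContDiff ℝ ∞ χ ∧ (∀ x, 0 ≤ χ x ∧ χ x ≤ 1) ∧ (∀ x, (∃ y ∈ F, dist x y < 1) → χ x = 0) ∧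
    (∀ x, (∀ y ∈ F, 3 ≤ dist x y) → χ x = 1) ∧ (∀ x, ‖fderiv ℝ χ x‖ ≤ C) := by
  let f : ContDiffBump (0 : V d) := ⟨1 / 4, 1 / 2, by norm_num, by norm_num⟩
  set φ : V d → ℝ := f.normed volume with hφ
  have hφc : ContDiff ℝ ∞ φ := f.contDiff_normed
  have hφs : HasCompactSupport φ := f.hasCompactSupport_normed
  have hφ0 : ∀ t, 0 ≤ φ t := fun t => f.nonneg_normed t
  have hφ1 : ∫ t, φ t = 1 := f.integral_normed
  have hφz : ∀ t : V d, 1 / 2 ≤ ‖t‖ → φ t = 0 := by
    intro t ht
    by_contra h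
    have h1 : t ∈ Function.support φ := h
    rw [hφ, f.support_normed_eq, mem_ball_zero_iff] at h1
    exact absurd h1 (not_lt.2 ht)
  have hφi : Integrable φ := hφc.continuous.integrable_of_hasCompactSupport hφs
  set L : ℝ →L[ℝ] ℝ →L[ℝ] ℝ := ContinuousLinearMap.lsmul ℝ ℝ with hL
  have hdi : Integrable fun t : V d => ‖fderiv ℝ φ t‖ := by
    have h1 : Continuous fun t : V d => fderiv ℝ φ t := hφc.continuous_fderiv (by simp)
    exact (h1.integrable_of_hasCompactSupport (hφs.fderiv ℝ)).norm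
  have hkey : ∀ (f' : V d →L[ℝ] ℝ) (y : ℝ), ‖y‖ ≤ 1 → ‖L.precompL (V d) f' y‖ ≤ ‖f'‖ := by
    intro f' y hy
    refine ContinuousLinearMap.opNorm_le_bound _ (norm_nonneg _) fun v => ?_
    have h1 : L.precompL (V d) f' y v = f' v * y := rfl
    rw [h1, norm_mul]
    have h2 := f'.le_opNorm v
    have h3 : ‖f' v‖ * ‖y‖ ≤ ‖f' v‖ := mul_le_of_le_one_right (norm_nonneg _) hy
    linarith
  refine ⟨∫ t : V d, ‖fderiv ℝ φ t‖, integral_nonneg fun t => norm_nonneg _, ?_⟩
  intro F
  set A : Set (V d) := {x | ∀ y ∈ F, 2 ≤ dist x y} with hA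
  have hAc : IsClosed A := by
    have h1 : A = ⋂ y ∈ F, {x : V d | 2 ≤ dist x y} := by
      ext x
      simp [hA]
    rw [h1]
    exact isClosed_biInter fun y _ => isClosed_le continuous_const (continuous_id.dist continuous_const)
  set g : V d → ℝ := A.indicator fun _ => 1 with hg
  have hg01 : ∀ x, 0 ≤ g x ∧ g x ≤ 1 := by
    intro x
    by_cases hx : x ∈ A
    · rw [hg, indicator_of_mem hx]
      exact ⟨zero_le_one, le_rfl⟩
    · rw [hg, indicator_of_notMem hx]
      exact ⟨le_rfl, zero_le_one⟩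
  have hgl : LocallyIntegrable g volume := (locallyIntegrable_const 1).indicator hAc.measurableSet
  have hval : ∀ x, (φ ⋆[L, volume] g) x = ∫ t, φ t * g (x - t) := fun x => rfl
  have hgm : ∀ x : V d, AEStronglyMeasurable (fun t => g (x - t)) volume := by
    intro x
    have h1 : Measurable g := measurable_const.indicator hAc.measurableSet
    exact (h1.comp (measurable_const.sub measurable_id)).aestronglyMeasurable
  have hpi : ∀ x : V d, Integrable fun t => φ t * g (x - t) := by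
    intro x
    refine hφi.mono (hφi.1.mul (hgm x)) (Eventually.of_forall fun t => ?_)
    rw [norm_mul]
    have h1 : ‖g (x - t)‖ ≤ 1 := by
      rw [Real.norm_of_nonneg (hg01 _).1]
      exact (hg01 _).2
    nlinarith [norm_nonneg (φ t)]
  refine ⟨φ ⋆[L, volume] g, hφs.contDiff_convolution_left L hφc hgl, ?_, ?_, ?_, ?_⟩
  · intro x
    rw [hval]
    constructor
    · exact integral_nonneg fun t => mul_nonneg (hφ0 t) (hg01 _).1
    · rw [← hφ1]
      refine integral_mono (hpi x) hφi fun t => ?_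
      have := hφ0 t
      have h2 := (hg01 (x - t)).2
      show φ t * g (x - t) ≤ φ t
      nlinarith
  · rintro x ⟨y, hy, hxy⟩
    rw [hval]
    refine integral_eq_zero_of_ae (Eventually.of_forall fun t => ?_)
    show φ t * g (x - t) = 0
    by_cases ht : 1 / 2 ≤ ‖t‖
    · rw [hφz t ht, zero_mul]
    · have h1 : x - t ∉ A := by
        intro h
        have h2 := h y hy
        have h3 : dist (x - t) y ≤ dist (x - t) x + dist x y := dist_triangle _ _ _
        have h4 : dist (x - t) x = ‖t‖ := by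
          rw [dist_eq_norm]
          simp
        have := not_le.1 ht
        linarith
      rw [hg, indicator_of_notMem h1, mul_zero]
  · intro x hx
    rw [hval, ← hφ1]
    refine integral_congr_ae (Eventually.of_forall fun t => ?_)
    show φ t * g (x - t) = φ t
    by_cases ht : 1 / 2 ≤ ‖t‖
    · rw [hφz t ht, zero_mul]
    · have h1 : x - t ∈ A := by
        intro y hy
        have h2 := hx y hy
        have h3 : dist x y ≤ dist x (x - t) + dist (x - t) y := dist_triangle _ _ _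
        have h4 : dist x (x - t) = ‖t‖ := by
          rw [dist_eq_norm]
          simp
        have := not_le.1 ht
        linarith
      rw [hg, indicator_of_mem h1, mul_one]
  · intro x
    rw [(hφs.hasFDerivAt_convolution_left L (hφc.of_le (by simp)) hgl x).fderiv]
    refine norm_integral_le_of_norm_le hdi (Eventually.of_forall fun t => ?_)
    have h1 : ‖g (x - t)‖ ≤ 1 := by
      rw [Real.norm_of_nonneg (hg01 _).1]
      exact (hg01 _).2
    exact hkey _ _ h1

theorem pf_CTF : Pool.Agent.H22.AN.T_CTF := by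
  intro d
  obtain ⟨C, hC, h⟩ := ctf_one d
  refine ⟨C, hC, ?_⟩
  intro F s hs
  obtain ⟨χ, h1, h2, h3, h4, h5⟩ := h ((fun x => s⁻¹ • x) '' F)
  have hd : ∀ x y : V d, dist (s⁻¹ • x) (s⁻¹ • y) = s⁻¹ * dist x y := by
    intro x y
    rw [dist_smul₀, Real.norm_of_nonneg (by positivity)]
  have hlin : ContDiff ℝ ∞ fun x : V d => s⁻¹ • x := contDiff_const_smul _
  refine ⟨fun x => χ (s⁻¹ • x), h1.comp hlin, fun x => h2 _, ?_, ?_, ?_⟩
  · rintro x ⟨y, hy, hxy⟩
    refine h3 _ ⟨s⁻¹ • y, mem_image_of_mem _ hy, ?_⟩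
    rw [hd, inv_mul_lt_iff₀ hs, mul_one]
    exact hxy
  · intro x hx
    refine h4 _ ?_
    rintro _ ⟨y, hy, rfl⟩
    show 3 ≤ dist (s⁻¹ • x) (s⁻¹ • y)
    rw [hd, le_inv_mul_iff₀ hs, mul_comm]
    exact hx y hy
  · intro x
    have h6 : HasFDerivAt (fun x : V d => χ (s⁻¹ • x))
        ((fderiv ℝ χ (s⁻¹ • x)).comp (s⁻¹ • ContinuousLinearMap.id ℝ (V d))) x := by
      have h7 : HasFDerivAt χ (fderiv ℝ χ (s⁻¹ • x)) (s⁻¹ • x) :=
        (h1.differentiable (by simp) _).hasFDerivAt
      exact h7.comp x ((hasFDerivAt_id x).const_smul s⁻¹)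
    rw [h6.fderiv, ContinuousLinearMap.comp_smul, ContinuousLinearMap.comp_id, norm_smul,
      Real.norm_of_nonneg (by positivity), div_eq_inv_mul]
    gcongr
    exact h5 _

end Pool.Agent.H56.AN
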