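import Pool.Agent.H87.AN.TargetsC
import Pool.Agent.H80.AN.TargetsA

/-! One step of the absorption for the densities. -/

set_option autoImplicit false

namespace Pool.Agent.H56.AN

open MeasureTheory Metric Set Filter Topology Pool.Agent.H87.SN Pool.Agent.H87.SH Pool.Agent.H87.AX
open Pool.Agent.H22.AN
open scoped ContDiff RealInnerProductSpace ENNReal

theorem sj_pos56 (i : ℕ) : 0 < sj i := by
  unfold sj
  positivity

theorem sj_le_sixteenth56 {i : ℕ} (hi : 4 ≤ i) : sj i ≤ 1 / 16 := by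
  unfold sj
  calc ((1 : ℝ) / 2) ^ i ≤ (1 / 2) ^ 4 := pow_le_pow_of_le_one (by norm_num) (by norm_num) hi
    _ = 1 / 16 := by norm_num

theorem meas_th56 {d m : ℕ} (hMUF : T_MUF) {G : V d → V d →L[ℝ] E m}
    (hG : MemLp G 2 (volume.restrict (ball (0 : V d) 2))) (r : ℝ) :
    Measurable fun x : V d => th G x r := by
  have h := (hMUF d m G hG).2.2.2.2.2 r
  unfold th
  exact h.measurable.div_const _

theorem pf_JST (hABS : T_ABS) (hMUF : T_MUF) : T_JST := by
  intro d Λ e e₀ hd he he₀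
  obtain ⟨C, hC, hA⟩ := hABS d Λ e e₀ hd he he₀
  refine ⟨C * Real.sqrt Λ + 4 * C, by positivity, ?_⟩
  intro m G hG er η ν a b r K hη ha hr hR j hj
  set s : ℝ := sj (j + a + r) with hs
  have hs0 : 0 < s := sj_pos56 _
  have hs1 : s ≤ 1 / 16 := sj_le_sixteenth56 (by omega)
  set S : Set (V d) := {y : V d | y ∈ ball 0 (9 / 8) ∧ e₀ ≤ th G y s ∧ th G y (s / 8) < 2 * er}
    with hS
  set f : V d → ℝ≥0∞ := fun y => ENNReal.ofReal (Real.sqrt (th G y (s / 128))) with hf
  set wr : V d → ℝ≥0∞ := fun z => 4 * ENNReal.ofReal (3 / 2 - ‖z‖) with hwr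
  have hm : ∀ t : ℝ, Measurable fun x : V d => th G x t := fun t => meas_th56 hMUF hG.memG t
  have hfm : Measurable f := by
    rw [hf]
    exact (Real.continuous_sqrt.measurable.comp (hm _)).ennreal_ofReal
  have hwm : Measurable wr := by
    rw [hwr]
    exact ((measurable_const.sub measurable_norm).ennreal_ofReal).const_mul 4
  have hSm : MeasurableSet S := by
    rw [hS]
    refine MeasurableSet.inter measurableSet_ball (MeasurableSet.inter ?_ ?_)
    · exact measurableSet_le measurable_const (hm _)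
    · exact measurableSet_lt (hm _) measurable_const
  have hS32 : S ⊆ ball 0 (3 / 2) := fun y hy => ball_subset_ball (by norm_num) hy.1
  have hF : ∀ y ∈ S, (fun _ : V d => (1 : ℝ≥0∞)) y * f y ≤ ENNReal.ofReal (Real.sqrt Λ) := by
    intro y hy
    simp only [one_mul]
    refine ENNReal.ofReal_le_ofReal (Real.sqrt_le_sqrt ?_)
    have hb : ball y (s / 128) ⊆ ball (0 : V d) 2 := by
      refine ball_subset_ball' ?_
      have h1 : dist y 0 < 9 / 8 := hy.1
      linarith
    have h2 := hG.den y (s / 128) (by positivity) hb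
    unfold th
    rw [div_le_iff₀ (by positivity)]
    exact h2
  have hw : ∀ y ∈ S, ∀ z, dist y z < sj j / 8 → (fun _ : V d => (1 : ℝ≥0∞)) y ≤ wr z := by
    intro y hy z hz
    have h1 : dist y 0 < 9 / 8 := hy.1
    have h2 : sj j ≤ 1 / 16 := sj_le_sixteenth56 hj
    have h3 : ‖z‖ ≤ dist z y + dist y 0 := by
      rw [← dist_zero_right]
      exact dist_triangle _ _ _
    rw [dist_comm z y] at h3
    have h4 : (1 : ℝ) / 4 ≤ 3 / 2 - ‖z‖ := by linarith
    show (1 : ℝ≥0∞) ≤ 4 * ENNReal.ofReal (3 / 2 - ‖z‖)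
    calc (1 : ℝ≥0∞) = 4 * ENNReal.ofReal (1 / 4) := by
          rw [show (4 : ℝ≥0∞) = ENNReal.ofReal 4 by norm_num, ← ENNReal.ofReal_mul (by norm_num)]
          norm_num
      _ ≤ 4 * ENNReal.ofReal (3 / 2 - ‖z‖) := by gcongr
  have hmain := hA m G hG a b r K j ν η (Real.sqrt Λ) ha hr hj hη (Real.sqrt_nonneg _) f
    (fun _ => 1) wr S hfm measurable_const hwm hSm hS32 (fun y hy => hy.2.1) hF hw
    (by
      intro x hx hW
      have hb : ball x (4 * sj j) ⊆ ball (0 : V d) 2 := by
        refine ball_subset_ball' ?_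
        have h1 : dist x 0 < 25 / 16 := hx
        have h2 : sj j ≤ 1 / 16 := sj_le_sixteenth56 hj
        linarith
      refine le_trans ?_ (hR x j hb hW).2
      gcongr
      intro y hy
      exact ⟨hy.2, hy.1.2.1, hy.1.2.2⟩)
  have hK : ∀ i : ℕ, Kw G e wr i = 4 * Hj G e i := by
    intro i
    unfold Hj Kw
    have h1 : ∀ x : V d, wr x * bs G x (sj i) =
        4 * (ENNReal.ofReal (3 / 2 - ‖x‖) * bs G x (sj i)) := by
      intro x
      rw [hwr, mul_assoc]
    simp only [h1]
    rw [lintegral_const_mul' _ _ (by norm_num)]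
    ring
  rw [hK, hK, hK] at hmain
  have hJ : Jj G er e₀ (j + a + r) = ENNReal.ofReal ((s ^ 2)⁻¹) *
      ∫⁻ y in S, (fun _ : V d => (1 : ℝ≥0∞)) y * f y := by
    unfold Jj
    simp only [one_mul]
    rfl
  rw [hJ]
  refine hmain.trans ?_
  have h0 : 0 ≤ C * Real.sqrt Λ := by positivity
  refine add_le_add ?_ ?_
  · refine mul_le_mul' (ENNReal.ofReal_le_ofReal ?_) le_rfl
    exact mul_le_mul_of_nonneg_right (by linarith) (by positivity)
  · have h4 : ENNReal.ofReal (4 * (C * η)) = 4 * ENNReal.ofReal (C * η) := by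
      rw [ENNReal.ofReal_mul (by norm_num : (0 : ℝ) ≤ 4)]
      norm_num
    calc ENNReal.ofReal (C * η) * (4 * Hj G e (j + b + r) + 4 * Hj G e (j + r) +
          4 * Hj G e (j + 3))
        = (4 * ENNReal.ofReal (C * η)) *
          (Hj G e (j + b + r) + Hj G e (j + r) + Hj G e (j + 3)) := by ring
      _ = ENNReal.ofReal (4 * (C * η)) *
          (Hj G e (j + b + r) + Hj G e (j + r) + Hj G e (j + 3)) := by
          rw [h4]
      _ ≤ _ := by
          refine mul_le_mul' (ENNReal.ofReal_le_ofReal ?_) le_rfl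
          nlinarith [mul_nonneg h0 hη]

end Pool.Agent.H56.AN
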